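import Pool.Agent.H289R4.Orb.Mirror

set_option autoImplicit false

open Pool.Agent.H289R4.Orb

namespace Pool.Agent.Results.MP_fa0058_gt.MirrorHalfPlane

/-- A negative answer to Q1. Let `M` be the quotient orbifold of the plane `ℝ²` by the reflection
`(u, v) ↦ (-u, v)` (a half-plane whose boundary line is a reflector line). For every `n ≥ 1` there
are a smooth point `y` of `PB_n(M)` and a point `x` of the fibre `F_y = M ∖ {y_1, …, y_n}` (also
smooth, so that `(y, x)` is a smooth point of `PB_{n+1}(M)`) such that the sequence `π₁ᵒʳᵇ(F_y, x) → π₁ᵒʳᵇ(PB_{n+1}(M), (y, x)) → π₁ᵒʳᵇ(PB_n(M), y)` is not exact at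
the middle term. So the forgetful map `f(M) : PB_{n+1}(M) → PB_n(M)` is not a quasifibration, for
any choice of the homomorphisms `∂`. -/
theorem result :
    ConnectedSpace MirrorPlane ∧ FaithfulSMul ℤˣ MirrorPlane ∧
      ∀ n : ℕ, 1 ≤ n → ∃ (y : PB ℤˣ MirrorPlane n) (x : Fib y),
        IsSmoothPoint y ∧ IsSmoothPoint (incl y x) ∧ ¬ ExactAtMiddle y x := by
  refine ⟨Function.Surjective.connectedSpace (f := ofC) (fun z => ⟨toC z, rfl⟩) continuous_ofC, ⟨fun {e e'} h => ?_⟩, fun n hn => ?_⟩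
  · have h1 := congrArg (fun z => (toC z).re) (h (ofC 1))
    simp only [toC_smul, toC_ofC, Complex.one_re, mul_one] at h1
    have h2 : ((e : ℤˣ) : ℤ) = ((e' : ℤˣ) : ℤ) := by exact_mod_cast h1
    exact Units.ext h2
  · obtain ⟨m, rfl⟩ : ∃ m, n = m + 1 := ⟨n - 1, by omega⟩
    exact ⟨basePt m, fibPt m, basePt_smooth m, incl_smooth m, not_exact m⟩

end Pool.Agent.Results.MP_fa0058_gt.MirrorHalfPlane
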